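import Pool.Agent.Lib.MP_524519_ag.DU5.AB.Iface

set_option autoImplicit false
set_option linter.unusedSectionVars false

namespace Pool.Agent.DU5.AB.H82

open Pool.Agent.DU5

/-! ### DERS: the two derivations of the power series ring -/

theorem du_iter (k : Type) {A : Type} [Field k] [CommRing A] [Algebra k A] (n : ℕ)
    (a : PowerSeries A) (m : ℕ) : PowerSeries.coeff m ((du k)^[n] a) =
      PowerSeries.coeff (m + n) a * ((m + n).descFactorial n : A) := by
  induction n generalizing m with
  | zero => simp
  | succ n ih =>
    rw [Function.iterate_succ_apply', du_apply, PowerSeries.coeff_derivative, ih]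
    rw [show m + (n + 1) = m + 1 + n by ring, Nat.descFactorial_succ,
      show m + 1 + n - n = m + 1 by omega]
    push_cast
    ring

theorem dl_iter {k A : Type} [Field k] [CommRing A] [Algebra k A] (D : Derivation k A A) (n : ℕ)
    (a : PowerSeries A) (m : ℕ) : PowerSeries.coeff m ((dlD D)^[n] a) =
      D^[n] (PowerSeries.coeff m a) := by
  induction n with
  | zero => rfl
  | succ n ih =>
    rw [Function.iterate_succ_apply', dlD_apply, Function.iterate_succ_apply']
    rw [dl, PowerSeries.coeff_mk, ih]

theorem ders : DERSStatement := by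
  intro p _ k K _ _ _ _ D t hD ht
  have hcast : (p : K) = 0 := by
    rw [← map_natCast (algebraMap k K), CharP.cast_eq_zero, map_zero]
  have hcm : ∀ a : PowerSeries K, du k (dlD D a) = dlD D (du k a) := by
    intro a
    ext n
    have h1 : D ((n : K) + 1) = 0 := by
      have := D.map_natCast (n + 1)
      push_cast at this
      exact this
    rw [du_apply, dlD_apply, dlD_apply, du_apply]
    rw [PowerSeries.coeff_derivative, dl, dl, PowerSeries.coeff_mk, PowerSeries.coeff_mk,
      PowerSeries.coeff_derivative, Derivation.leibniz, h1, smul_zero, zero_add, smul_eq_mul,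
      mul_comm]
  refine ⟨?_, ?_, ?_⟩
  · intro l m a
    fin_cases l <;> fin_cases m
    · rfl
    · exact hcm a
    · exact (hcm a).symm
    · rfl
  · intro l a
    fin_cases l
    · show (du k)^[p] a = 0
      ext m
      rw [du_iter, Nat.descFactorial_eq_factorial_mul_choose, map_zero]
      have h1 : ((p.factorial : ℕ) : K) = 0 := by
        obtain ⟨c, hc⟩ := Nat.dvd_factorial (Fact.out : p.Prime).pos le_rfl
        rw [hc, Nat.cast_mul, hcast, zero_mul]
      rw [Nat.cast_mul, h1, zero_mul, mul_zero]
    · show (dlD D)^[p] a = 0
      ext m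
      rw [dl_iter, hD, map_zero]
  · intro l m
    fin_cases l <;> fin_cases m
    · show du k PowerSeries.X = if (0 : Fin 2) = 0 then 1 else 0
      rw [du_apply]
      simp
    · show du k (PowerSeries.C t) = if (0 : Fin 2) = 1 then 1 else 0
      rw [du_apply]
      simp
    · show dlD D PowerSeries.X = if (1 : Fin 2) = 0 then 1 else 0
      rw [dlD_apply, if_neg (by decide)]
      ext n
      rw [dl, PowerSeries.coeff_mk, PowerSeries.coeff_X]
      split_ifs <;> simp
    · show dlD D (PowerSeries.C t) = if (1 : Fin 2) = 1 then 1 else 0
      rw [dlD_apply, if_pos rfl]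
      ext n
      rw [dl, PowerSeries.coeff_mk, PowerSeries.coeff_C]
      rw [PowerSeries.coeff_one]
      split_ifs <;> simp [ht]

end Pool.Agent.DU5.AB.H82
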