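import Pool.Agent.Lib.MP_524519_ag.DU5.AB.Iface

set_option autoImplicit false
set_option linter.unusedSectionVars false

namespace Pool.Agent.DU5.AB.H82

open Pool.Agent.DU5

/-! ### JAC: the Cartier operator on `X^a Y^b dX dY` -/

section

variable {k S : Type} [Field k] [CommRing S] [Algebra k S]

theorem it_comm (D : Fin 2 → Derivation k S S) (hc : ∀ l m a, D l (D m a) = D m (D l a))
    (n : ℕ) (z : S) : (D 1)^[n] (D 0 z) = D 0 ((D 1)^[n] z) := by
  induction n with
  | zero => rfl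
  | succ n ih => rw [Function.iterate_succ_apply', ih, hc, Function.iterate_succ_apply']

theorem TT_D1 (p : ℕ) [Fact p.Prime] {D : Fin 2 → Derivation k S S} {y : Fin 2 → S}
    (h : Coord p D y) (z : S) : TT p D (D 1 z) = 0 := by
  have hp : p - 1 + 1 = p := Nat.sub_add_cancel (Fact.out : p.Prime).pos
  unfold TT
  rw [← Function.iterate_succ_apply, Nat.succ_eq_add_one, hp, h.nil, it_zero]

theorem TT_D0 (p : ℕ) [Fact p.Prime] {D : Fin 2 → Derivation k S S} {y : Fin 2 → S}
    (h : Coord p D y) (z : S) : TT p D (D 0 z) = 0 := by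
  have hp : p - 1 + 1 = p := Nat.sub_add_cancel (Fact.out : p.Prime).pos
  unfold TT
  rw [it_comm D h.comm, ← Function.iterate_succ_apply, Nat.succ_eq_add_one, hp, h.nil]

theorem TT_sub (p : ℕ) (D : Fin 2 → Derivation k S S) (a b : S) :
    TT p D (a - b) = TT p D a - TT p D b := by
  rw [sub_eq_add_neg, TT_add, TT_neg, sub_eq_add_neg]

theorem TT_closed (p : ℕ) [Fact p.Prime] {D : Fin 2 → Derivation k S S} {y : Fin 2 → S}
    (h : Coord p D y) (E c0 c1 : S) (hc : D 0 c1 = D 1 c0) :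
    TT p D (D 0 E * c1 - D 1 E * c0) = 0 := by
  have h1 : D 0 E * c1 - D 1 E * c0 = D 0 (E * c1) - D 1 (E * c0) := by
    rw [Derivation.leibniz, Derivation.leibniz, smul_eq_mul, smul_eq_mul, smul_eq_mul,
      smul_eq_mul, hc]
    ring
  rw [h1, TT_sub, TT_D0 p h, TT_D1 p h, sub_zero]

theorem closed_r {D : Fin 2 → Derivation k S S} (hc : ∀ l m a, D l (D m a) = D m (D l a))
    (X : S) (a : ℕ) : D 0 (X ^ a * D 1 X) = D 1 (X ^ a * D 0 X) := by
  rw [Derivation.leibniz, Derivation.leibniz, Derivation.leibniz_pow, Derivation.leibniz_pow,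
    hc 0 1 X]
  simp only [smul_eq_mul, nsmul_eq_mul]
  ring

theorem grad_r (p : ℕ) [Fact p.Prime] [CharP k p] (X : S) (a : ℕ) (ha : a + 1 < p) :
    ∃ E : S, ∀ D : Derivation k S S, X ^ a * D X = D E := by
  have hne : ((a + 1 : ℕ) : k) ≠ 0 := by
    intro h
    have h1 := (CharP.cast_eq_zero_iff k p (a + 1)).1 h
    exact absurd (Nat.le_of_dvd (Nat.succ_pos a) h1) (by omega)
  refine ⟨(((a + 1 : ℕ) : k))⁻¹ • X ^ (a + 1), fun D => ?_⟩
  rw [D.map_smul, Derivation.leibniz_pow, Nat.add_sub_cancel, ← Nat.cast_smul_eq_nsmul k,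
    smul_smul, inv_mul_cancel₀ hne, one_smul, smul_eq_mul]

theorem it_fact (D : Derivation k S S) (y : S) (hy : D y = 1) (n : ℕ) :
    D^[n] (y ^ n) = (n.factorial : S) := by
  induction n with
  | zero => simp
  | succ n ih =>
    have h1 : D (y ^ (n + 1)) = ((n + 1 : ℕ) : S) * y ^ n := by
      rw [Derivation.leibniz_pow, Nat.add_sub_cancel, hy, nsmul_eq_mul, smul_eq_mul, mul_one]
    rw [Function.iterate_succ_apply, h1, it_const D n (D.map_natCast (n + 1)), ih,
      Nat.factorial_succ]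
    push_cast
    ring

end

theorem jac (hCF : CFStatement) : JACStatement := by
  intro p _ k S _ _ _ _ D y h X Y a b ha hb
  have hpp : p.Prime := Fact.out
  have hX := closed_r h.comm X a
  have hY := closed_r h.comm Y b
  have hJ : X ^ a * Y ^ b * Jd D X Y =
      (X ^ a * D 0 X) * (Y ^ b * D 1 Y) - (X ^ a * D 1 X) * (Y ^ b * D 0 Y) := by
    unfold Jd
    ring
  refine ⟨?_, ?_⟩
  · rintro ⟨rfl, rfl⟩
    obtain ⟨E, hE⟩ := hCF p k S D y h X
    obtain ⟨F, hF⟩ := hCF p k S D y h Y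
    have d01 : D 0 (y 1) = 0 := by rw [h.dual]; simp
    have d10 : D 1 (y 0) = 0 := by rw [h.dual]; simp
    have d00 : D 0 (y 0) = 1 := by rw [h.dual]; simp
    have d11 : D 1 (y 1) = 1 := by rw [h.dual]; simp
    have g1 : ∀ c : S, D 0 (c ^ p * y 1 ^ (p - 1)) = 0 := by
      intro c
      rw [Derivation.leibniz, der_pow_char p (D 0) c, smul_zero, add_zero, Derivation.leibniz_pow,
        d01, smul_zero, smul_zero, smul_zero]
    have g0 : ∀ c : S, D 1 (c ^ p * y 0 ^ (p - 1)) = 0 := by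
      intro c
      rw [Derivation.leibniz, der_pow_char p (D 1) c, smul_zero, add_zero, Derivation.leibniz_pow,
        d10, smul_zero, smul_zero, smul_zero]
    have hsplit : X ^ (p - 1) * Y ^ (p - 1) * Jd D X Y =
        ((D 0 X) ^ p * (D 1 Y) ^ p - (D 1 X) ^ p * (D 0 Y) ^ p) *
          (y 0 ^ (p - 1) * y 1 ^ (p - 1)) +
        ((D 0 E * (D 1 Y ^ p * y 1 ^ (p - 1)) - D 1 E * (D 0 Y ^ p * y 0 ^ (p - 1))) -
        (D 0 F * (D 1 X ^ p * y 1 ^ (p - 1)) - D 1 F * (D 0 X ^ p * y 0 ^ (p - 1)))) +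
        (D 0 E * D 1 F - D 1 E * D 0 F) := by
      rw [hJ, hE 0, hE 1, hF 0, hF 1]
      ring
    have c1 := TT_closed p h E (D 0 Y ^ p * y 0 ^ (p - 1)) (D 1 Y ^ p * y 1 ^ (p - 1))
      (by rw [g1, g0])
    have c2 := TT_closed p h F (D 0 X ^ p * y 0 ^ (p - 1)) (D 1 X ^ p * y 1 ^ (p - 1))
      (by rw [g1, g0])
    have c3 := TT_closed p h E (D 0 F) (D 1 F) (h.comm 0 1 F)
    have hfac : ((p - 1).factorial : S) = -1 := by
      have h1 : ((p - 1).factorial : ZMod p) = -1 := ZMod.wilsons_lemma p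
      have h2 := congrArg (ZMod.castHom (dvd_refl p) k) h1
      rw [map_natCast, map_neg, map_one] at h2
      have h3 := congrArg (algebraMap k S) h2
      rwa [map_natCast, map_neg, map_one] at h3
    have hpow : (D 0 X) ^ p * (D 1 Y) ^ p - (D 1 X) ^ p * (D 0 Y) ^ p = (Jd D X Y) ^ p := by
      rcases subsingleton_or_nontrivial S with hs | hs
      · exact Subsingleton.elim _ _
      · have : CharP S p := charP_of_injective_algebraMap (algebraMap k S).injective p
        unfold Jd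
        rw [sub_pow_char, mul_pow, mul_pow]
    have htop : TT p D (y 0 ^ (p - 1) * y 1 ^ (p - 1)) = 1 := by
      unfold TT
      have h1 : D 1 (y 0 ^ (p - 1)) = 0 := by
        rw [Derivation.leibniz_pow, d10, smul_zero, smul_zero]
      rw [it_const (D 1) (p - 1) h1, it_fact (D 1) (y 1) d11, mul_comm,
        it_const (D 0) (p - 1) ((D 0).map_natCast _), it_fact (D 0) (y 0) d00, hfac]
      ring
    rw [hsplit, TT_add, TT_add, TT_sub, c1, c2, c3, hpow, TT_pow, htop]
    ring
  · intro hne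
    have hor : a + 1 < p ∨ b + 1 < p := by
      by_contra hc
      push Not at hc
      exact hne ⟨by omega, by omega⟩
    rcases hor with h1 | h1
    · obtain ⟨E, hE⟩ := grad_r (k := k) p X a h1
      rw [hJ, hE (D 0), hE (D 1)]
      exact TT_closed p h E _ _ hY
    · obtain ⟨E, hE⟩ := grad_r (k := k) p Y b h1
      rw [hJ, hE (D 0), hE (D 1)]
      have h2 : X ^ a * D 0 X * D 1 E - X ^ a * D 1 X * D 0 E =
          -(D 0 E * (X ^ a * D 1 X) - D 1 E * (X ^ a * D 0 X)) := by ring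
      rw [h2, TT_neg, TT_closed p h E _ _ hX, neg_zero]

end Pool.Agent.DU5.AB.H82
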